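import Mathlib

set_option autoImplicit false

namespace Pool.Agent.H.MP_5a23e6_co

open Matrix Finset

def Z1 {ι : Type} (v : ι → ℤ) : Prop := ∀ i, v i = 0 ∨ v i = 1

section gadget
variable {K : Type} [Fintype K] [DecidableEq K] (G H : Matrix K K ℤ) (g : ℤ) (p q : K → ℤ)

def IsA (x : ℤ) : Prop := ∃ v : K → ℤ, Z1 v ∧ x = v ⬝ᵥ (H *ᵥ q)
def IsB (x : ℤ) : Prop := ∃ u : K → ℤ, Z1 u ∧ x = p ⬝ᵥ (H *ᵥ u)

def Good (ι : Type) [Fintype ι] [DecidableEq ι] (m : ℕ) : Prop :=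
  ∃ (A : Matrix ι ι ℤ) (P : ι → ℤ), (∀ i, Z1 (A i)) ∧ Z1 P ∧ A.det ≠ 0 ∧
    ∀ α β : ℕ → ℤ, (∀ l, IsA H q (α l)) → (∀ l, IsB H p (β l)) →
      ∃ u v X : ι → ℤ, Z1 u ∧ Z1 v ∧ A *ᵥ X = g ^ m • u ∧
        P ⬝ᵥ X = ∑ l ∈ range m, g ^ l * β l ∧
        g ^ m ∣ g * (v ⬝ᵥ X + (∑ l ∈ range m, g ^ l * β l) *
          ∑ l ∈ range m, g ^ (m - 1 - l) * α l)

lemma good_zero (r : ℕ) : Good H g p q (Fin r) 0 := by
  refine ⟨1, 0, ?_, fun _ => Or.inl rfl, by simp, fun α β _ _ => ⟨0, 0, 0, fun _ => Or.inl rfl,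
    fun _ => Or.inl rfl, by simp, by simp, by simp⟩⟩
  intro i j
  by_cases h : i = j <;> simp [Matrix.one_apply, h]

lemma good_step (hG : ∀ i, Z1 (G i)) (hGH : G * H = g • (1 : Matrix K K ℤ)) (hg : g ≠ 0)
    (hp : Z1 p) (hq : Z1 q) (hw : p ⬝ᵥ (H *ᵥ q) = -1)
    (ι : Type) [Fintype ι] [DecidableEq ι] (m : ℕ) (h : Good H g p q ι m) :
    Good H g p q (ι ⊕ K) (m + 1) := by
  obtain ⟨A, P, hA, hP, hdet, hall⟩ := h
  have hdG : G.det ≠ 0 := by
    intro h0
    have := congrArg Matrix.det hGH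
    rw [det_mul, h0, zero_mul, det_smul, det_one, mul_one] at this
    exact pow_ne_zero _ hg this.symm
  refine ⟨fromBlocks A 0 (vecMulVec q P) G, Sum.elim 0 p, ?_, ?_, ?_, ?_⟩
  · rintro (i | i) (j | j)
    · exact hA i j
    · exact Or.inl rfl
    · simp only [fromBlocks_apply₂₁, vecMulVec_apply]
      rcases hq i with h | h <;> rcases hP j with h' | h' <;> simp [h, h']
    · exact hG i j
  · rintro (i | i)
    · exact Or.inl rfl
    · exact hp i
  · rw [det_fromBlocks_zero₁₂]; exact mul_ne_zero hdet hdG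
  intro α β hα hβ
  obtain ⟨u, v, X, hu, hv, hX, hS, hd⟩ := hall α β hα hβ
  obtain ⟨v1, hv1, ha⟩ := hα m
  obtain ⟨u1, hu1, hb⟩ := hβ m
  set S := ∑ l ∈ range m, g ^ l * β l with hSdef
  set Xs := ∑ l ∈ range m, g ^ (m - 1 - l) * α l with hXs
  have hXs' : ∑ l ∈ range (m + 1), g ^ (m + 1 - 1 - l) * α l = g * Xs + α m := by
    rw [sum_range_succ, hXs, mul_sum]
    congr 1
    · refine sum_congr rfl fun l hl => ?_
      have := mem_range.1 hl
      rw [show m + 1 - 1 - l = (m - 1 - l) + 1 by omega, pow_succ]; ring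
    · simp
  refine ⟨Sum.elim u u1, Sum.elim v v1, Sum.elim (g • X) (H *ᵥ (g ^ m • u1 - S • q)), ?_, ?_, ?_,
    ?_, ?_⟩
  · rintro (i | i)
    · exact hu i
    · exact hu1 i
  · rintro (i | i)
    · exact hv i
    · exact hv1 i
  · rw [fromBlocks_mulVec]
    simp only [Sum.elim_comp_inl, Sum.elim_comp_inr, zero_mulVec, add_zero, mulVec_mulVec, hGH,
      mulVec_smul, hX, vecMulVec_mulVec, hS]
    funext i
    rcases i with i | i
    · simp [pow_succ]; ring
    · simp [pow_succ, smul_mulVec]; ring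
  · rw [sumElim_dotProduct_sumElim, sum_range_succ, ← hSdef, mulVec_sub, mulVec_smul, mulVec_smul,
      dotProduct_sub, dotProduct_smul, dotProduct_smul, dotProduct_smul, hw, ← hb]
    simp; ring
  · rw [sumElim_dotProduct_sumElim, sum_range_succ, ← hSdef, hXs', mulVec_sub, mulVec_smul,
      mulVec_smul, dotProduct_sub, dotProduct_smul, dotProduct_smul, dotProduct_smul, ← ha]
    obtain ⟨c, hc⟩ := hd
    refine ⟨c + v1 ⬝ᵥ (H *ᵥ u1) + β m * (g * Xs + α m), ?_⟩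
    simp only [smul_eq_mul]
    linear_combination g * hc

lemma good_all (hG : ∀ i, Z1 (G i)) (hGH : G * H = g • (1 : Matrix K K ℤ)) (hg : g ≠ 0)
    (hp : Z1 p) (hq : Z1 q) (hw : p ⬝ᵥ (H *ᵥ q) = -1) (r m : ℕ) :
    ∃ (ι : Type) (_ : Fintype ι) (_ : DecidableEq ι),
      Fintype.card ι = r + Fintype.card K * m ∧ Good H g p q ι m := by
  induction m with
  | zero => exact ⟨Fin r, inferInstance, inferInstance, by simp, good_zero H g p q r⟩
  | succ m ih =>
    obtain ⟨ι, i1, i2, hc, hgood⟩ := ih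
    exact ⟨ι ⊕ K, inferInstance, inferInstance, by simp [hc]; ring,
      good_step G H g p q hG hGH hg hp hq hw ι m hgood⟩

lemma hensel (hp : Z1 p) (hq : Z1 q) (hw : p ⬝ᵥ (H *ᵥ q) = -1)
    (hcov : ∀ r : ℤ, ∃ a b, IsA H q a ∧ IsB H p b ∧ g ∣ a + b - r) (t : ℤ) (ht : g ∣ t - 1)
    (L : ℕ) :
    ∃ α β : ℕ → ℤ, (∀ l, IsA H q (α l)) ∧ (∀ l, IsB H p (β l)) ∧
      g ∣ (∑ l ∈ range (L + 1), g ^ l * α l) + 1 ∧ g ∣ (∑ l ∈ range (L + 1), g ^ l * β l) + 1 ∧
      g ^ (L + 1) ∣ (∑ l ∈ range (L + 1), g ^ l * β l) * (∑ l ∈ range (L + 1), g ^ l * α l) - t := by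
  induction L with
  | zero =>
    refine ⟨fun _ => -1, fun _ => -1, fun _ => ⟨p, hp, hw.symm⟩, fun _ => ⟨q, hq, hw.symm⟩,
      by simp, by simp, ?_⟩
    simpa using (dvd_sub_comm.1 ht)
  | succ L ih =>
    obtain ⟨α, β, hα, hβ, ⟨c1, h1⟩, ⟨c2, h2⟩, ⟨c, hc⟩⟩ := ih
    obtain ⟨a, b, ha, hb, ⟨e, he⟩⟩ := hcov c
    have e1 : ∑ l ∈ range (L + 1 + 1), g ^ l * Function.update α (L + 1) a l =
        ∑ l ∈ range (L + 1), g ^ l * α l + g ^ (L + 1) * a := by
      rw [sum_range_succ, Function.update_self]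
      congr 1
      refine sum_congr rfl fun l hl => ?_
      have := mem_range.1 hl
      rw [Function.update_of_ne (by omega)]
    have e2 : ∑ l ∈ range (L + 1 + 1), g ^ l * Function.update β (L + 1) b l =
        ∑ l ∈ range (L + 1), g ^ l * β l + g ^ (L + 1) * b := by
      rw [sum_range_succ, Function.update_self]
      congr 1
      refine sum_congr rfl fun l hl => ?_
      have := mem_range.1 hl
      rw [Function.update_of_ne (by omega)]
    refine ⟨Function.update α (L + 1) a, Function.update β (L + 1) b, ?_, ?_, ?_, ?_, ?_⟩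
    · intro l
      by_cases h : l = L + 1
      · subst h; simpa using ha
      · rw [Function.update_of_ne h]; exact hα l
    · intro l
      by_cases h : l = L + 1
      · subst h; simpa using hb
      · rw [Function.update_of_ne h]; exact hβ l
    · rw [e1]; exact ⟨c1 + g ^ L * a, by linear_combination h1⟩
    · rw [e2]; exact ⟨c2 + g ^ L * b, by linear_combination h2⟩
    · rw [e1, e2]
      set x := ∑ l ∈ range (L + 1), g ^ l * α l
      set y := ∑ l ∈ range (L + 1), g ^ l * β l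
      refine ⟨-e + a * c2 + b * c1 + g ^ L * a * b, ?_⟩
      have hx : x = g * c1 - 1 := by linarith
      have hy : y = g * c2 - 1 := by linarith
      have hc' : c = a + b - g * e := by linarith
      rw [hx, hy] at hc ⊢
      rw [hc'] at hc
      linear_combination hc

end gadget

lemma border {ι : Type} [Fintype ι] [DecidableEq ι] (A : Matrix ι ι ℤ) (u v X : ι → ℤ) (N : ℤ)
    (hX : A *ᵥ X = N • u) :
    (fromBlocks A (replicateCol Unit u) (replicateRow Unit v) (0 : Matrix Unit Unit ℤ)).det * N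
      = - (A.det * (v ⬝ᵥ X)) := by
  have h1 : fromBlocks A (replicateCol Unit u) (replicateRow Unit v) (0 : Matrix Unit Unit ℤ) *
      fromBlocks 1 (replicateCol Unit (-X)) 0 (Matrix.of fun _ _ : Unit => N) =
      fromBlocks A 0 (replicateRow Unit v) (Matrix.of fun _ _ : Unit => -(v ⬝ᵥ X)) := by
    rw [fromBlocks_multiply]
    congr 1
    · simp
    · ext i j
      have := congrFun hX i
      simp only [mulVec, dotProduct, Pi.smul_apply, smul_eq_mul] at this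
      simp [Matrix.mul_apply, this]; ring
    · simp
    · ext i j
      simp [Matrix.mul_apply, dotProduct]
  have h2 := congrArg Matrix.det h1
  rw [det_mul, det_fromBlocks_zero₂₁, det_fromBlocks_zero₁₂] at h2
  simpa using h2

lemma pm_of_01 {ι : Type} [Fintype ι] [DecidableEq ι] (B : Matrix ι ι ℤ) (hB : ∀ i, Z1 (B i))
    (n : ℕ) (hn : n = Fintype.card ι + 1) :
    ∃ M : Matrix (Fin n) (Fin n) ℤ, (∀ i j, M i j = 1 ∨ M i j = -1) ∧
      M.det = 2 ^ (n - 1) * ((-1) ^ (n - 1) * B.det) := by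
  have hc : Fintype.card (Unit ⊕ ι) = n := by simp [hn]; ring
  let e := Fintype.equivFinOfCardEq hc
  let M0 : Matrix (Unit ⊕ ι) (Unit ⊕ ι) ℤ := fromBlocks 1 (Matrix.of fun _ _ => 1)
    (Matrix.of fun _ _ => 1) (Matrix.of fun i j => 1 - 2 * B i j)
  refine ⟨reindex e e M0, ?_, ?_⟩
  · intro i j
    simp only [reindex_apply, submatrix_apply]
    rcases e.symm i with a | a <;> rcases e.symm j with b | b
    · simp [M0]
    · simp [M0]
    · simp [M0]
    · rcases hB a b with h | h <;> simp [M0, h]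
  · rw [det_reindex_self, det_fromBlocks_one₁₁]
    have : (Matrix.of fun i j => 1 - 2 * B i j) -
        (Matrix.of fun (_ : ι) (_ : Unit) => (1 : ℤ)) * (Matrix.of fun (_ : Unit) (_ : ι) => (1 : ℤ))
        = (-2 : ℤ) • B := by
      ext i j; simp [Matrix.mul_apply]
    rw [this, det_smul, hn, Nat.add_sub_cancel, ← mul_assoc, ← mul_pow]
    norm_num

def Dset (n : ℕ) : Set ℤ := {d : ℤ | ∃ M : Matrix (Fin n) (Fin n) ℤ,
  (∀ i j, M i j = 1 ∨ M i j = -1) ∧ M.det = 2 ^ (n - 1) * d}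

lemma Dfin (n : ℕ) : (Dset n).Finite := by
  refine (Set.finite_range fun b : Fin n → Fin n → Bool =>
    (Matrix.of fun i j => if b i j then (1 : ℤ) else -1).det / 2 ^ (n - 1)).subset ?_
  rintro d ⟨M, hM, hd⟩
  refine ⟨fun i j => decide (M i j = 1), ?_⟩
  have : (Matrix.of fun i j => if decide (M i j = 1) then (1 : ℤ) else -1) = M := by
    ext i j; rcases hM i j with h | h <;> simp [h]
  simp only [this, hd]
  exact Int.mul_ediv_cancel_left _ (by positivity)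

lemma Dne (n : ℕ) (hn : 1 ≤ n) : 1 ≤ (Dset n).ncard := by
  obtain ⟨M, h1, h2⟩ := pm_of_01 (0 : Matrix (Fin (n - 1)) (Fin (n - 1)) ℤ)
    (fun _ _ => Or.inl rfl) n (by simp; omega)
  exact (Set.ncard_pos (Dfin n)).2 ⟨_, M, h1, h2⟩

theorem count {K : Type} [Fintype K] [DecidableEq K] (G H : Matrix K K ℤ) (g : ℕ) (p q : K → ℤ)
    (hG : ∀ i, Z1 (G i)) (hGH : G * H = (g : ℤ) • (1 : Matrix K K ℤ)) (hg : g ≠ 0)
    (hp : Z1 p) (hq : Z1 q) (hw : p ⬝ᵥ (H *ᵥ q) = -1)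
    (hcov : ∀ r : ℤ, ∃ a b, IsA H q a ∧ IsB H p b ∧ (g : ℤ) ∣ a + b - r) (r m : ℕ) :
    g ^ m ≤ (Dset (r + Fintype.card K * (m + 2) + 2)).ncard := by
  have hg' : (g : ℤ) ≠ 0 := by exact_mod_cast hg
  obtain ⟨ι, i1, i2, hc, A, P, hA, -, hdet, hall⟩ := good_all G H g p q hG hGH hg' hp hq hw r (m + 2)
  set n := r + Fintype.card K * (m + 2) + 2 with hn
  have key : ∀ j : ℕ, ∃ d ∈ Dset n, ∃ f : ℤ, d * (g : ℤ) ^ (m + 2) = (-1) ^ (n - 1) * -(A.det * f) ∧
      (g : ℤ) ^ (m + 1) ∣ f + (1 + g * j) := by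
    intro j
    obtain ⟨α, β, hα, hβ, -, -, c, hc1⟩ := hensel H g p q hp hq hw hcov (1 + g * j) (by simp) (m + 1)
    obtain ⟨u, v, X, hu, hv, hX, -, c2, hc2⟩ := hall (fun l => α (m + 2 - 1 - l)) β
      (fun l => hα _) hβ
    rw [sum_range_reflect (fun l => (g : ℤ) ^ l * α l)] at hc2
    have hb := border A u v X _ hX
    obtain ⟨M, hM1, hM2⟩ := pm_of_01
      (fromBlocks A (replicateCol Unit u) (replicateRow Unit v) (0 : Matrix Unit Unit ℤ))
      (by
        rintro (a | a) (b | b)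
        · exact hA a b
        · exact hu a
        · exact hv b
        · exact Or.inl rfl) n (by simp [hc, hn])
    refine ⟨_, ⟨M, hM1, hM2⟩, v ⬝ᵥ X, by rw [mul_assoc, hb], c2 - g * c, ?_⟩
    apply mul_left_cancel₀ hg'
    linear_combination hc2 - g * hc1
  choose d hd f hf1 hf2 using key
  have : ((range (g ^ m) : Finset ℕ) : Set ℕ).ncard ≤ (Dset n).ncard := by
    refine Set.ncard_le_ncard_of_injOn d (fun j _ => hd j) ?_ (Dfin n)
    intro i hi j hj hij
    have hi' : i < g ^ m := by simpa using hi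
    have hj' : j < g ^ m := by simpa using hj
    have h1 : f i = f j := by
      have := hf1 i
      rw [hij, hf1 j] at this
      have h2 := mul_left_cancel₀ (pow_ne_zero _ (by norm_num)) this
      exact (mul_left_cancel₀ hdet (neg_injective h2)).symm
    have h3 : (g : ℤ) ^ (m + 1) ∣ g * (i - j) := by
      have := dvd_sub (hf2 i) (hf2 j)
      rw [h1] at this
      have e : (g : ℤ) * (i - j) = f j + (1 + g * i) - (f j + (1 + g * j)) := by ring
      rw [e]; exact this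
    rw [pow_succ', mul_dvd_mul_iff_left hg'] at h3
    have h4 : (i : ℤ) - j = 0 := by
      refine Int.eq_zero_of_abs_lt_dvd h3 ?_
      have a1 : (i : ℤ) < g ^ m := by exact_mod_cast hi'
      have a2 : (j : ℤ) < g ^ m := by exact_mod_cast hj'
      rw [abs_lt]; constructor <;> omega
    omega
  simpa using this

def bs (c : ℕ → ℕ) (n : ℕ) : ℕ := Nat.rec 1 (fun i B => B ||| (B <<< c i)) n

lemma bs_spec (c : ℕ → ℕ) (n : ℕ) : ∀ j, (bs c n).testBit j = true →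
    ∃ e : ℕ → ℤ, Z1 e ∧ (j : ℤ) = ∑ i ∈ range n, e i * c i := by
  induction n with
  | zero =>
    intro j hj
    refine ⟨0, fun _ => Or.inl rfl, ?_⟩
    have : j = 0 := by
      by_contra h
      have h1 : (1 : ℕ).testBit j = false := Nat.testBit_lt_two_pow (Nat.one_lt_two_pow h)
      simp [bs, h1] at hj
    simp [this]
  | succ n ih =>
    intro j hj
    have hj' : (bs c n ||| (bs c n <<< c n)).testBit j = true := hj
    have upd : ∀ (e : ℕ → ℤ) (x : ℤ), ∑ i ∈ range (n + 1), Function.update e n x i * c i =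
        ∑ i ∈ range n, e i * c i + x * c n := by
      intro e x
      rw [sum_range_succ, Function.update_self]
      congr 1
      refine sum_congr rfl fun l hl => ?_
      have := mem_range.1 hl
      rw [Function.update_of_ne (by omega)]
    have z1 : ∀ (e : ℕ → ℤ) (x : ℤ), Z1 e → (x = 0 ∨ x = 1) → Z1 (Function.update e n x) := by
      intro e x he hx l
      by_cases h : l = n
      · subst h; simpa using hx
      · rw [Function.update_of_ne h]; exact he l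
    rw [Nat.testBit_or, Bool.or_eq_true, Nat.testBit_shiftLeft, Bool.and_eq_true] at hj'
    rcases hj' with h | ⟨h1, h2⟩
    · obtain ⟨e, he, hs⟩ := ih j h
      exact ⟨_, z1 e 0 he (Or.inl rfl), by rw [upd, ← hs]; simp⟩
    · obtain ⟨e, he, hs⟩ := ih _ h2
      have h1' : c n ≤ j := by simpa using h1
      exact ⟨_, z1 e 1 he (Or.inr rfl), by rw [upd, ← hs]; push_cast [h1']; ring⟩

def Gm : Matrix (Fin 14) (Fin 14) ℤ := Matrix.of fun i j =>
  (([[0, 1, 0, 1, 1, 1, 0, 0, 1, 1, 1, 0, 1, 0], [1, 0, 0, 1, 0, 1, 0, 1, 1, 0, 0, 0, 0, 1], [1, 0, 1, 1, 0, 1, 0, 0, 0, 1, 0, 1, 1, 0], [1, 1, 0, 0, 0, 0, 1, 1, 0, 1, 1, 0, 1, 1], [0, 1, 0, 1, 1, 0, 0, 1, 0, 1, 0, 1, 0, 1], [1, 1, 1, 1, 1, 0, 1, 0, 0, 0, 0, 0, 0, 0], [0, 0, 1, 1, 1, 0, 0, 1, 0, 0, 1, 0, 1, 1], [0, 0, 0, 1, 1, 0, 1, 1, 1, 0, 0, 1, 1, 0], [1, 0, 0, 0, 1, 1, 1, 0, 0, 0, 1, 1, 0, 1], [1, 1, 1, 0, 0, 0, 0, 0, 1, 0, 0, 1, 1, 1], [0, 1, 1, 0, 0, 1, 1, 1, 0, 0, 1, 1,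 0, 0], [1, 0, 1, 0, 1, 0, 0, 1, 1, 1, 1, 1, 0, 0], [0, 0, 1, 1, 0, 0, 1, 0, 1, 1, 1, 1, 0, 1], [0, 0, 1, 0, 1, 1, 1, 1, 1, 1, 0, 0, 1, 1]] : List (List ℤ)).getD i.val []).getD j.val 0

def Hm : Matrix (Fin 14) (Fin 14) ℤ := Matrix.of fun i j =>
  (([[-2241, 3987, 2970, 4338, -3096, 4144, -1998, -552, 2500, 777, -3922, 4537, -3214, -3294], [4575, -762, -3822, 1323, 4266, 3483, -2925, -2484, -2904, 5013, 4593, -2331, -2331, -1680], [-3081, -1896, 1842, -4215, -2202, 4089, 4257, -4899, -3930, 2220, 3189, 1890, 1890, 3876], [1392, 4434, 3198, -1107, 1176, 3413, 2922, 2553, -2632, -3720, -1154, -3586, 4165, -5238], [2241, -3987, -2970, -4338, 3096, 3607, 1998, 552, 5251, -777, -3829, 3214, -4537, 3294], [3543, 3969, 3429, -3870, -615, -2121, -1884, -3174, 3591, -1851, 4914, -3147, -3147, 3807], [-2886, -1776, -1218, 3999, -3240, 4517, -4254, 4830, 1715, -3513, 1123, -3724, 4027, 3042], [-4158, 4596, -933, 3006, 2100, -2210,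 1896, 2898, -4700, -3321, 4583, 3562, -4189, 612], [4128, 4329, -5751, -2481, -3729, -837, -4164, 2760, -2727, 4203, -1284, 3264, 3264, 1305], [1104, -2898, 4140, 3933, 4140, -1035, -4899, -3588, -2622, -4554, -3588, 3036, 3036, 3864], [4497, -810, -2598, 2688, -4620, -2889, 5130, -1725, 2589, -1995, 2319, 3015, 3015, -5997], [-2490, -3321, 3300, -2931, 4311, -4869, -2220, 4554, 3639, 3447, 2532, 735, 735, -3660], [1773, -4275, 4374, 3852, -3714, -3621, 3822, 5106, -546, 3681, -1971, -3465, -3465, 645], [-2664, 1938, -2913, 114, 4164, -2389, 3228, -4485, 3968, 3912, -3137, -4630, 3121, 2808]] : List (List ℤ)).getD i.val []).getD j.val 0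

def pv : Fin 14 → ℤ := fun i => ([0, 0, 0, 0, 1, 0, 0, 1, 1, 1, 0, 0, 0, 1] : List ℤ).getD i.val 0
def qv : Fin 14 → ℤ := fun i => ([0, 0, 1, 0, 1, 1, 1, 1, 0, 0, 1, 0, 1, 1] : List ℤ).getD i.val 0
def cl (i : ℕ) : ℕ := ([14291, 22353, 12042, 11035, 1211, 1209, 8827, 4757, 14817, 2070, 15888, 4683, 1176, 397, 651, 3978, 14826, 234, 9771, 20389, 21312, 21390, 22423, 22716, 15998, 8446, 695, 11883] : List ℕ).getD i 0

lemma hG : ∀ i j, Gm i j = 0 ∨ Gm i j = 1 := by decide +kernel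
lemma hp : ∀ i, pv i = 0 ∨ pv i = 1 := by decide +kernel
lemma hq : ∀ i, qv i = 0 ∨ qv i = 1 := by decide +kernel
lemma hGH0 : ∀ i j, ∑ l, Gm i l * Hm l j = if i = j then 23253 else 0 := by decide +kernel
lemma hw0 : ∑ i, pv i * ∑ j, Hm i j * qv j = -1 := by decide +kernel
lemma ha0 : ∀ i : Fin 14, (23253 : ℤ) ∣ (∑ j, Hm i j * qv j) - cl i := by decide +kernel
lemma hb0 : ∀ j : Fin 14, (23253 : ℤ) ∣ (∑ i, pv i * Hm i j) - cl (14 + j) := by decide +kernel
lemma hrun : (bs cl 28 >>> 133108) % 2 ^ 23253 = 2 ^ 23253 - 1 := by decide +kernel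

lemma hcov (r : ℤ) : ∃ a b, IsA Hm qv a ∧ IsB Hm pv b ∧ ((23253 : ℕ) : ℤ) ∣ a + b - r := by
  obtain ⟨j, hj, hjr⟩ : ∃ j : ℕ, j < 23253 ∧ (23253 : ℤ) ∣ ((133108 + j : ℕ) : ℤ) - r :=
    ⟨((r - 133108) % 23253).toNat, by omega, by omega⟩
  have h1 : (bs cl 28).testBit (133108 + j) = true := by
    have := congrArg (fun x => Nat.testBit x j) hrun
    simp only [Nat.testBit_mod_two_pow, Nat.testBit_shiftRight, Nat.testBit_two_pow_sub_one, hj,
      decide_true, Bool.true_and] at this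
    exact this
  obtain ⟨e, he, hs⟩ := bs_spec cl 28 _ h1
  rw [show 28 = 14 + 14 from rfl, sum_range_add, Finset.sum_range, Finset.sum_range] at hs
  refine ⟨_, _, ⟨fun i => e i, fun i => he i, rfl⟩, ⟨fun i => e (14 + i), fun i => he _, rfl⟩, ?_⟩
  have a1 : (23253 : ℤ) ∣ (fun i : Fin 14 => e i) ⬝ᵥ (Hm *ᵥ qv) - ∑ i : Fin 14, e i * cl i := by
    rw [dotProduct, ← sum_sub_distrib]
    refine dvd_sum fun i _ => ?_
    rw [← mul_sub]
    exact (ha0 i).mul_left _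
  have a2 : (23253 : ℤ) ∣ pv ⬝ᵥ (Hm *ᵥ fun i : Fin 14 => e (14 + i)) -
      ∑ i : Fin 14, e (14 + i) * cl (14 + i) := by
    rw [dotProduct_mulVec, dotProduct, ← sum_sub_distrib]
    refine dvd_sum fun i _ => ?_
    rw [mul_comm (e _), ← sub_mul]
    exact (hb0 i).mul_right _
  have a3 := dvd_add (dvd_add a1 a2) hjr
  rw [hs] at a3
  obtain ⟨c, hc⟩ := a3
  exact ⟨c, by push_cast; linear_combination hc⟩

theorem main (r m : ℕ) : 23253 ^ m ≤ (Dset (r + 14 * (m + 2) + 2)).ncard := by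
  have := count Gm Hm 23253 pv qv hG (by
    ext i j
    rw [Matrix.mul_apply, hGH0]
    by_cases h : i = j <;> simp [h, Matrix.one_apply]) (by norm_num) hp hq hw0 hcov r m
  simpa using this

end Pool.Agent.H.MP_5a23e6_co
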